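import Pool.Agent.Y453.UF.Stm

/-!
# Duality in the exterior algebra of `Z^n`
-/

set_option autoImplicit false

namespace Pool.Agent.Y780.UF

open Pool.Agent.Y453.UF Pool.Agent.Results.MP_9b3cbe_gt.E8Arises

/-- the ring, as an exterior algebra -/
abbrev A (n : ℕ) : Type := ExteriorAlgebra ℤ (Fin n → ℤ)

/-- its graded pieces -/
abbrev L (n k : ℕ) : Submodule ℤ (A n) := ⋀[ℤ]^k (Fin n → ℤ)

/-- degree one generators -/
noncomputable def g {n : ℕ} (i : Fin n) : A n := ExteriorAlgebra.ι ℤ (Pi.single i 1)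

/-- the standard top class -/
noncomputable def T1 (n : ℕ) : A n := ExteriorAlgebra.ιMulti ℤ n (fun i => Pi.single i 1)

/-- contraction with the coordinate functional -/
noncomputable def D {n : ℕ} (a : Fin n) : A n →ₗ[ℤ] A n :=
  CliffordAlgebra.contractLeft (Q := (0 : QuadraticForm ℤ (Fin n → ℤ)))
    (LinearMap.proj a : (Fin n → ℤ) →ₗ[ℤ] ℤ)

lemma D_iota_mul {n : ℕ} (a : Fin n) (v : Fin n → ℤ) (x : A n) :
    D a (ExteriorAlgebra.ι ℤ v * x) = v a • x - ExteriorAlgebra.ι ℤ v * D a x :=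
  CliffordAlgebra.contractLeft_ι_mul _ _ _

lemma D_alg {n : ℕ} (a : Fin n) (r : ℤ) : D a (algebraMap ℤ (A n) r) = 0 :=
  CliffordAlgebra.contractLeft_algebraMap _ _ r

lemma g_D_self {n : ℕ} (a : Fin n) (x : A n) (h : g a * x = 0) : g a * D a x = x := by
  have h1 := D_iota_mul a (Pi.single a 1) x
  have h2 : ExteriorAlgebra.ι ℤ (Pi.single a 1) * x = 0 := h
  rw [h2, map_zero, Pi.single_eq_same, one_smul] at h1
  exact (sub_eq_zero.mp h1.symm).symm

lemma g_D_ne {n : ℕ} (j a : Fin n) (hja : j ≠ a) (x : A n) (h : g j * x = 0) :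
    g j * D a x = 0 := by
  have h1 := D_iota_mul a (Pi.single j 1) x
  have h2 : ExteriorAlgebra.ι ℤ (Pi.single j 1) * x = 0 := h
  rw [h2, map_zero, Pi.single_eq_of_ne (Ne.symm hja), zero_smul, zero_sub] at h1
  exact neg_eq_zero.mp h1.symm

lemma D_mem {n : ℕ} (a : Fin n) : ∀ (m : ℕ) (x : A n), x ∈ L n (m + 1) → D a x ∈ L n m := by
  intro m
  induction m with
  | zero =>
    intro x hx
    have hx' : x ∈ LinearMap.range (ExteriorAlgebra.ι ℤ : (Fin n → ℤ) →ₗ[ℤ] A n) := by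
      have : L n 1 = LinearMap.range (ExteriorAlgebra.ι ℤ : (Fin n → ℤ) →ₗ[ℤ] A n) :=
        pow_one _
      rw [← this]; exact hx
    obtain ⟨v, rfl⟩ := hx'
    have h1 := D_iota_mul a v 1
    have h2 : D a (1 : A n) = 0 := by
      have := D_alg a 1
      rwa [map_one] at this
    rw [mul_one, h2, mul_zero, sub_zero] at h1
    rw [h1]
    have h3 : (1 : A n) ∈ L n 0 := by
      change (1 : A n) ∈ (LinearMap.range (ExteriorAlgebra.ι ℤ : (Fin n → ℤ) →ₗ[ℤ] A n)) ^ 0
      rw [pow_zero]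
      exact Submodule.one_le.mp le_rfl
    exact Submodule.smul_mem _ _ h3
  | succ m ih =>
    intro x hx
    have hx' : x ∈ (LinearMap.range (ExteriorAlgebra.ι ℤ : (Fin n → ℤ) →ₗ[ℤ] A n)) *
        L n (m + 1) := by
      have : L n (m + 1 + 1) = (LinearMap.range (ExteriorAlgebra.ι ℤ : (Fin n → ℤ) →ₗ[ℤ] A n)) *
        L n (m + 1) := pow_succ' _ _
      rw [← this]; exact hx
    refine Submodule.mul_induction_on hx' ?_ ?_
    · rintro _ ⟨v, rfl⟩ y hy
      rw [D_iota_mul]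
      refine Submodule.sub_mem _ (Submodule.smul_mem _ _ hy) ?_
      have : L n (m + 1) = (LinearMap.range (ExteriorAlgebra.ι ℤ : (Fin n → ℤ) →ₗ[ℤ] A n)) *
        L n m := pow_succ' _ _
      rw [this]
      exact Submodule.mul_mem_mul ⟨v, rfl⟩ (ih y hy)
    · intro x y hx hy
      rw [map_add]
      exact Submodule.add_mem _ hx hy

lemma T1_mem (n : ℕ) : T1 n ∈ L n n :=
  ExteriorAlgebra.ιMulti_range ℤ (M := Fin n → ℤ) n ⟨_, rfl⟩

lemma g_T1 {n : ℕ} (i : Fin n) : g i * T1 n = 0 := by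
  have h : g i * T1 n = ExteriorAlgebra.ιMulti ℤ (n + 1)
      (Fin.cons (Pi.single i 1) (fun j => Pi.single j 1) : Fin (n + 1) → (Fin n → ℤ)) := by
    rw [ExteriorAlgebra.ιMulti_succ_apply]
    rfl
  rw [h]
  apply ExteriorAlgebra.ιMulti_eq_zero_of_not_inj
  intro hinj
  have := @hinj 0 i.succ (by simp)
  exact absurd this (Fin.succ_ne_zero i).symm

lemma top_le (n : ℕ) : L n n ≤ Submodule.span ℤ {T1 n} := by
  have hsp : Submodule.span ℤ (Set.range fun i : Fin n => (Pi.single i 1 : Fin n → ℤ)) = ⊤ := by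
    have hb : (fun i : Fin n => (Pi.single i 1 : Fin n → ℤ)) = (Pi.basisFun ℤ (Fin n)) := by
      ext i j
      simp
    rw [hb]
    exact (Pi.basisFun ℤ (Fin n)).span_eq
  change ⋀[ℤ]^n (Fin n → ℤ) ≤ _
  rw [← exteriorPower.ιMulti_family_span_fixedDegree_of_span ℤ (n := n) hsp]
  rw [Submodule.span_le]
  rintro x ⟨s, rfl⟩
  have h3 : ∀ i, Set.powersetCard.ofFinEmbEquiv.symm s i = i := by
    have hm : StrictMono (Set.powersetCard.ofFinEmbEquiv.symm s) :=
      (Set.powersetCard.ofFinEmbEquiv.symm s).strictMono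
    have hb : Function.Bijective (Set.powersetCard.ofFinEmbEquiv.symm s) :=
      Finite.injective_iff_bijective.mp hm.injective
    have h := (hm.range_inj (strictMono_id (α := Fin n))).mp (by
      rw [hb.2.range_eq, Set.range_id])
    intro i
    exact congrFun h i
  have h2 : ExteriorAlgebra.ιMulti_family ℤ n (fun i : Fin n => (Pi.single i 1 : Fin n → ℤ)) s =
    ExteriorAlgebra.ιMulti ℤ n (fun i => (Pi.single (Set.powersetCard.ofFinEmbEquiv.symm s i) 1 : Fin n → ℤ)) := rfl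
  rw [h2]
  simp only [h3]
  exact Submodule.mem_span_singleton_self _

/-- four contractions of the top class -/
noncomputable def X {n : ℕ} (a b c d : Fin n) : A n := D d (D c (D b (D a (T1 n))))

lemma X_mem {n : ℕ} (a b c d : Fin n) (h4 : 4 ≤ n) : X a b c d ∈ L n (n - 4) := by
  obtain ⟨m, hm⟩ : ∃ m, n = m + 4 := ⟨n - 4, by omega⟩
  have h0 : T1 n ∈ L n (m + 4) := hm ▸ T1_mem n
  have h1 : n - 4 = m := by omega
  rw [h1]
  exact D_mem d m _ (D_mem c (m + 1) _ (D_mem b (m + 2) _ (D_mem a (m + 3) _ h0)))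

lemma X_zero {n : ℕ} (a b c d j : Fin n) (ha : j ≠ a) (hb : j ≠ b) (hc : j ≠ c) (hd : j ≠ d) :
    g j * X a b c d = 0 :=
  g_D_ne _ _ hd _ (g_D_ne _ _ hc _ (g_D_ne _ _ hb _ (g_D_ne _ _ ha _ (g_T1 j))))

lemma X_self {n : ℕ} (a b c d : Fin n) (hab : a < b) (hbc : b < c) (hcd : c < d) :
    g a * g b * (g c * g d) * X a b c d = T1 n := by
  have hd : g d * X a b c d = D c (D b (D a (T1 n))) := g_D_self _ _
    (g_D_ne _ _ hcd.ne' _ (g_D_ne _ _ (hbc.trans hcd).ne' _
      (g_D_ne _ _ (hab.trans (hbc.trans hcd)).ne' _ (g_T1 d))))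
  have hc : g c * D c (D b (D a (T1 n))) = D b (D a (T1 n)) := g_D_self _ _
    (g_D_ne _ _ hbc.ne' _ (g_D_ne _ _ (hab.trans hbc).ne' _ (g_T1 c)))
  have hb : g b * D b (D a (T1 n)) = D a (T1 n) := g_D_self _ _
    (g_D_ne _ _ hab.ne' _ (g_T1 b))
  have ha : g a * D a (T1 n) = T1 n := g_D_self _ _ (g_T1 a)
  rw [mul_assoc, mul_assoc (g c), hd, hc, mul_assoc, hb, ha]

lemma g_sq {n : ℕ} (i : Fin n) : g i * g i = 0 := ExteriorAlgebra.ι_sq_zero _

lemma g_swap {n : ℕ} (i j : Fin n) : g i * g j = - (g j * g i) := by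
  have h := ExteriorAlgebra.ι_add_mul_swap (R := ℤ) (Pi.single i 1 : Fin n → ℤ) (Pi.single j 1)
  exact eq_neg_of_add_eq_zero_left h

lemma g_swap' {n : ℕ} (i j : Fin n) (x : A n) : g i * (g j * x) = - (g j * (g i * x)) := by
  rw [← mul_assoc, g_swap i j, neg_mul, mul_assoc]

lemma X_sorted {n : ℕ} (i j k l a b c d : Fin n) (hij : i < j) (hjk : j < k) (hkl : k < l)
    (hab : a < b) (hbc : b < c) (hcd : c < d) (h : ¬ (a = i ∧ b = j ∧ c = k ∧ d = l)) :
    g i * g j * (g k * g l) * X a b c d = 0 := by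
  have key : (i ≠ a ∧ i ≠ b ∧ i ≠ c ∧ i ≠ d) ∨ (j ≠ a ∧ j ≠ b ∧ j ≠ c ∧ j ≠ d) ∨
      (k ≠ a ∧ k ≠ b ∧ k ≠ c ∧ k ≠ d) ∨ (l ≠ a ∧ l ≠ b ∧ l ≠ c ∧ l ≠ d) := by
    by_contra hcon
    apply h
    simp only [Fin.lt_def, Fin.ext_iff, ne_eq] at *
    omega
  rw [mul_assoc, mul_assoc (g i), mul_assoc (g k)]
  rcases key with h1 | h1 | h1 | h1
  · rw [g_swap' i j, g_swap' i k, g_swap' i l, X_zero a b c d i h1.1 h1.2.1 h1.2.2.1 h1.2.2.2]
    simp
  · rw [g_swap' j k, g_swap' j l, X_zero a b c d j h1.1 h1.2.1 h1.2.2.1 h1.2.2.2]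
    simp
  · rw [g_swap' k l, X_zero a b c d k h1.1 h1.2.1 h1.2.2.1 h1.2.2.2]
    simp
  · rw [X_zero a b c d l h1.1 h1.2.1 h1.2.2.1 h1.2.2.2]
    simp

/-- A function of four indices, antisymmetric under the adjacent transpositions and vanishing on
repeated adjacent indices, vanishes if it vanishes on increasing indices. -/
lemma sort4 {n : ℕ} {M : Type} [AddCommGroup M] (F : Fin n → Fin n → Fin n → Fin n → M)
    (h1 : ∀ i j k l, F j i k l = - F i j k l) (h2 : ∀ i j k l, F i k j l = - F i j k l)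
    (h3 : ∀ i j k l, F i j l k = - F i j k l) (z1 : ∀ i k l, F i i k l = 0)
    (z2 : ∀ i j l, F i j j l = 0) (z3 : ∀ i j k, F i j k k = 0)
    (hs : ∀ i j k l, i < j → j < k → k < l → F i j k l = 0) : ∀ i j k l, F i j k l = 0 := by
  have P3 : ∀ i j k l, j < k → k < l → F i j k l = 0 := by
    intro i j k l hjk hkl
    rcases lt_trichotomy i j with h | h | h
    · exact hs _ _ _ _ h hjk hkl
    · subst h; exact z1 _ _ _
    rw [h1 j i]
    rcases lt_trichotomy i k with h' | h' | h'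
    · rw [hs _ _ _ _ h h' hkl, neg_zero]
    · subst h'; rw [z2, neg_zero]
    rw [h2 j k i]
    rcases lt_trichotomy i l with h'' | h'' | h''
    · rw [hs _ _ _ _ hjk h' h'']; simp
    · subst h''; rw [z3]; simp
    rw [h3 j k l i, hs _ _ _ _ hjk hkl h'']; simp
  have P2 : ∀ i j k l, k < l → F i j k l = 0 := by
    intro i j k l hkl
    rcases lt_trichotomy j k with h | h | h
    · exact P3 _ _ _ _ h hkl
    · subst h; exact z2 _ _ _
    rw [h2 i k j]
    rcases lt_trichotomy j l with h' | h' | h'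
    · rw [P3 _ _ _ _ h h', neg_zero]
    · subst h'; rw [z3, neg_zero]
    rw [h3 i k l j, P3 _ _ _ _ hkl h']; simp
  intro i j k l
  rcases lt_trichotomy k l with h | h | h
  · exact P2 _ _ _ _ h
  · subst h; exact z3 _ _ _
  · rw [h3 i j l k, P2 _ _ _ _ h, neg_zero]

/-- the class with the given alternating tensor -/
noncomputable def om {n : ℕ} (w : Fin n → Fin n → Fin n → Fin n → ℤ) : A n :=
  ∑ a, ∑ b, ∑ c, ∑ d, if a < b ∧ b < c ∧ c < d then w a b c d • X a b c d else 0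

lemma om_mem {n : ℕ} (w : Fin n → Fin n → Fin n → Fin n → ℤ) (h4 : 4 ≤ n) :
    om w ∈ L n (n - 4) := by
  refine Submodule.sum_mem _ fun a _ => Submodule.sum_mem _ fun b _ =>
    Submodule.sum_mem _ fun c _ => Submodule.sum_mem _ fun d _ => ?_
  split_ifs
  · exact Submodule.smul_mem _ _ (X_mem _ _ _ _ h4)
  · exact Submodule.zero_mem _

lemma om_sorted {n : ℕ} (w : Fin n → Fin n → Fin n → Fin n → ℤ) (i j k l : Fin n)
    (hij : i < j) (hjk : j < k) (hkl : k < l) :
    g i * g j * (g k * g l) * om w = w i j k l • T1 n := by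
  have hz : ∀ a b c d, ¬ (a = i ∧ b = j ∧ c = k ∧ d = l) →
      g i * g j * (g k * g l) * (if a < b ∧ b < c ∧ c < d then w a b c d • X a b c d else 0) = 0 := by
    intro a b c d h
    split_ifs with h'
    · rw [mul_smul_comm, X_sorted i j k l a b c d hij hjk hkl h'.1 h'.2.1 h'.2.2 h, smul_zero]
    · rw [mul_zero]
  unfold om
  simp only [Finset.mul_sum]
  rw [Finset.sum_eq_single i, Finset.sum_eq_single j, Finset.sum_eq_single k,
    Finset.sum_eq_single l]
  · rw [if_pos ⟨hij, hjk, hkl⟩, mul_smul_comm, X_self i j k l hij hjk hkl]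
  · intro d _ hd
    exact hz _ _ _ _ fun h => hd h.2.2.2
  · intro h; exact absurd (Finset.mem_univ _) h
  · intro c _ hc
    exact Finset.sum_eq_zero fun d _ => hz _ _ _ _ fun h => hc h.2.2.1
  · intro h; exact absurd (Finset.mem_univ _) h
  · intro b _ hb
    exact Finset.sum_eq_zero fun c _ => Finset.sum_eq_zero fun d _ => hz _ _ _ _ fun h => hb h.2.1
  · intro h; exact absurd (Finset.mem_univ _) h
  · intro a _ ha
    exact Finset.sum_eq_zero fun b _ => Finset.sum_eq_zero fun c _ => Finset.sum_eq_zero fun d _ =>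
      hz _ _ _ _ fun h => ha h.1
  · intro h; exact absurd (Finset.mem_univ _) h

lemma om_all {n : ℕ} (w : Fin n → Fin n → Fin n → Fin n → ℤ) (hw : IsAlt4 w) (i j k l : Fin n) :
    g i * g j * (g k * g l) * om w = w i j k l • T1 n := by
  obtain ⟨w1, w2, w3⟩ := hw
  have e1 : ∀ i k l, w i i k l = 0 := fun i k l => by have := w1 i i k l; omega
  have e2 : ∀ i j l, w i j j l = 0 := fun i j l => by have := w2 i j j l; omega
  have e3 : ∀ i j k, w i j k k = 0 := fun i j k => by have := w3 i j k k; omega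
  rw [← sub_eq_zero]
  refine sort4 (fun i j k l => g i * g j * (g k * g l) * om w - w i j k l • T1 n)
    ?_ ?_ ?_ ?_ ?_ ?_ ?_ i j k l
  · intro i j k l
    rw [w1 i j k l, g_swap j i, neg_smul, neg_mul, neg_mul]
    abel
  · intro i j k l
    have : g i * g k * (g j * g l) = - (g i * g j * (g k * g l)) := by
      rw [mul_assoc, mul_assoc, g_swap' k j, mul_neg]
    rw [w2 i j k l, this, neg_smul, neg_mul]
    abel
  · intro i j k l
    rw [w3 i j k l, g_swap l k, neg_smul, mul_neg, neg_mul]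
    abel
  · intro i k l
    rw [e1, g_sq, zero_smul, zero_mul, zero_mul, sub_zero]
  · intro i j l
    have : g i * g j * (g j * g l) = 0 := by
      rw [mul_assoc, ← mul_assoc (g j), g_sq, zero_mul, mul_zero]
    rw [e2, this, zero_smul, zero_mul, sub_zero]
  · intro i j k
    rw [e3, g_sq, zero_smul, mul_zero, zero_mul, sub_zero]
  · intro i j k l hij hjk hkl
    rw [om_sorted w i j k l hij hjk hkl, sub_self]

theorem dual : S_DUAL := by
  intro n h4 T hT w hw
  have hTm : (show A n from T) ∈ L n n := by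
    have h : T ∈ Coh n n := by
      rw [← hT]
      exact AddSubgroup.mem_zmultiples T
    exact h
  obtain ⟨m, hm⟩ := Submodule.mem_span_singleton.mp (top_le n hTm)
  have hmem : m • om w ∈ L n (n - 4) := Submodule.smul_mem _ _ (om_mem w h4)
  refine ⟨(show CohRing n from m • om w), hmem, ?_⟩
  intro i j k l
  have key : g i * g j * (g k * g l) * (m • om w) = w i j k l • (show A n from T) := by
    rw [mul_smul_comm, om_all w hw, smul_comm, hm]
  exact key

end Pool.Agent.Y780.UF
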